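import Mathlib

set_option autoImplicit false

/-!
# MP_14f59b_co: a balanced ballot system for 7, 8, 9 candidates with 20 distinct ballots

The conjectured lower bound `B(2n-1, 2n, 2n+1) ≥ 6n - 3` fails at `n = 4`.
-/

namespace Pool.Agent.Results.MP_14f59b_co.TwentyBallots

open Finset

/-- A ballot for `k` offices, office `j` having the set `Fin (m j)` of candidates: for each
office an ordering of its candidates, that is a bijection from positions onto candidates. -/
abbrev Ballot {k : ℕ} (m : Fin k → ℕ) : Type := ∀ j : Fin k, Equiv.Perm (Fin (m j))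

/-- `IsBalanced m S w`: the nonempty finite set `S` of ballots with the positive multiplicities
`w b` (`b ∈ S`) is a balanced ballot system: for every office `j` and every position `p`, the
weighted count of the ballots of `S` which have candidate `c` of office `j` in position `p` is the
same for all candidates `c` of the office. -/
def IsBalanced {k : ℕ} (m : Fin k → ℕ) (S : Finset (Ballot m)) (w : Ballot m → ℕ) : Prop :=
  S.Nonempty ∧ (∀ b ∈ S, 0 < w b) ∧
    ∀ (j : Fin k) (p c c' : Fin (m j)),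
      ∑ b ∈ S.filter (fun b => b j p = c), w b = ∑ b ∈ S.filter (fun b => b j p = c'), w b

/-- `B m` is the least number of distinct ballots of a balanced ballot system. -/
noncomputable def B {k : ℕ} (m : Fin k → ℕ) : ℕ :=
  sInf {N | ∃ (S : Finset (Ballot m)) (w : Ballot m → ℕ), IsBalanced m S w ∧ S.card = N}

/-- shifts for the office with 7 candidates -/
def la : Fin 20 → Fin 7 :=
  ![0, 0, 0, 1, 1, 1, 2, 2, 3, 3, 3, 4, 4, 4, 5, 5, 5, 6, 6, 6]

/-- shifts for the office with 8 candidates -/
def lb : Fin 20 → Fin 8 :=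
  ![0, 0, 2, 1, 2, 3, 1, 7, 4, 4, 7, 4, 5, 5, 3, 6, 6, 3, 4, 7]

/-- shifts for the office with 9 candidates -/
def lc : Fin 20 → Fin 9 :=
  ![0, 1, 5, 1, 6, 6, 5, 7, 2, 3, 7, 3, 3, 4, 7, 1, 2, 8, 8, 2]

/-- the multiplicities -/
def wt : Fin 20 → ℕ :=
  ![56, 7, 9, 16, 54, 2, 47, 25, 10, 40, 22, 9, 7, 56, 9, 33, 30, 52, 4, 16]

/-- the ballots -/
def bal (i : Fin 20) : Ballot ![7, 8, 9] :=
  fun j => match j with
    | 0 => (Equiv.addRight (la i) : Equiv.Perm (Fin 7))
    | 1 => (Equiv.addRight (lb i) : Equiv.Perm (Fin 8))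
    | 2 => (Equiv.addRight (lc i) : Equiv.Perm (Fin 9))

lemma bal_inj : Function.Injective bal := by
  intro i i' h
  have h0 : (Equiv.addRight (la i) : Equiv.Perm (Fin 7)) = Equiv.addRight (la i') :=
    congrFun h 0
  have h1 : (Equiv.addRight (lb i) : Equiv.Perm (Fin 8)) = Equiv.addRight (lb i') :=
    congrFun h 1
  have h2 : (Equiv.addRight (lc i) : Equiv.Perm (Fin 9)) = Equiv.addRight (lc i') :=
    congrFun h 2
  have e0 : la i = la i' := by simpa using DFunLike.congr_fun h0 0
  have e1 : lb i = lb i' := by simpa using DFunLike.congr_fun h1 0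
  have e2 : lc i = lc i' := by simpa using DFunLike.congr_fun h2 0
  have key : ∀ i i' : Fin 20, la i = la i' → lb i = lb i' → lc i = lc i' → i = i' := by
    decide
  exact key i i' e0 e1 e2

/-- the set of ballots -/
def S : Finset (Ballot ![7, 8, 9]) := univ.map ⟨bal, bal_inj⟩

/-- the multiplicity of a ballot -/
def w (b : Ballot ![7, 8, 9]) : ℕ := ∑ i : Fin 20, if bal i = b then wt i else 0

lemma w_bal (i : Fin 20) : w (bal i) = wt i := by
  unfold w
  rw [Finset.sum_eq_single i]
  · simp
  · intro b _ hb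
    rw [if_neg]
    exact fun h => hb (bal_inj h)
  · simp

lemma sum_S (j : Fin 3) (p c : Fin ((![7, 8, 9] : Fin 3 → ℕ) j)) :
    ∑ b ∈ S.filter (fun b => b j p = c), w b = ∑ i : Fin 20, if bal i j p = c then wt i else 0 := by
  rw [Finset.sum_filter]
  unfold S
  rw [Finset.sum_map]
  refine Finset.sum_congr rfl fun i _ => ?_
  simp only [Function.Embedding.coeFn_mk, w_bal]

lemma s0 : ∀ x : Fin 7, (∑ i : Fin 20, if la i = x then wt i else 0) = 72 := by decide
lemma s1 : ∀ x : Fin 8, (∑ i : Fin 20, if lb i = x then wt i else 0) = 63 := by decide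
lemma s2 : ∀ x : Fin 9, (∑ i : Fin 20, if lc i = x then wt i else 0) = 56 := by decide

lemma t0 (p c : Fin 7) : (∑ i : Fin 20, if p + la i = c then wt i else 0) = 72 := by
  rw [← s0 (c - p)]
  refine Finset.sum_congr rfl fun i _ => ?_
  simp only [eq_sub_iff_add_eq']

lemma t1 (p c : Fin 8) : (∑ i : Fin 20, if p + lb i = c then wt i else 0) = 63 := by
  rw [← s1 (c - p)]
  refine Finset.sum_congr rfl fun i _ => ?_
  simp only [eq_sub_iff_add_eq']

lemma t2 (p c : Fin 9) : (∑ i : Fin 20, if p + lc i = c then wt i else 0) = 56 := by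
  rw [← s2 (c - p)]
  refine Finset.sum_congr rfl fun i _ => ?_
  simp only [eq_sub_iff_add_eq']

lemma balanced : IsBalanced ![7, 8, 9] S w := by
  refine ⟨⟨bal 0, ?_⟩, ?_, ?_⟩
  · simp [S]
  · intro b hb
    simp only [S, Finset.mem_map, Finset.mem_univ, Function.Embedding.coeFn_mk, true_and] at hb
    obtain ⟨i, rfl⟩ := hb
    rw [w_bal]
    revert i
    decide
  · intro j p c c'
    rw [sum_S, sum_S]
    fin_cases j
    · exact (t0 p c).trans (t0 p c').symm
    · exact (t1 p c).trans (t1 p c').symm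
    · exact (t2 p c).trans (t2 p c').symm

lemma card_S : S.card = 20 := by simp [S]

/-- **Main theorem.** There is a balanced ballot system for three offices with `7`, `8` and `9`
candidates which uses `20` distinct ballots, so `B(7, 8, 9) ≤ 20 = 6 * 4 - 4` and the bound
`B(2n-1, 2n, 2n+1) ≥ 6n - 3` does not hold for every positive integer `n`. -/
theorem result :
    (∃ (S : Finset (Ballot ![7, 8, 9])) (w : Ballot ![7, 8, 9] → ℕ),
      IsBalanced ![7, 8, 9] S w ∧ S.card = 20) ∧
    ¬ ∀ n : ℕ, 1 ≤ n → 6 * n - 3 ≤ B ![2 * n - 1, 2 * n, 2 * n + 1] := by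
  refine ⟨⟨S, w, balanced, card_S⟩, fun h => ?_⟩
  have h4 := h 4 (by norm_num)
  have hB : B ![7, 8, 9] ≤ 20 := Nat.sInf_le ⟨S, w, balanced, card_S⟩
  have h4' : 21 ≤ B ![7, 8, 9] := h4
  omega

end Pool.Agent.Results.MP_14f59b_co.TwentyBallots
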